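import Pool.Agent.W34.GB.Stm
import Pool.Agent.H337R2.Bt5
import Pool.Agent.H337R2.Cx4
import Pool.Agent.H336R2.HD.H2

/-!
# GZ, task N2: partial fraction coefficients modulo `p`, and their size
-/

open Polynomial Pool.Agent.H337R2 Pool.Agent.W34.GB

namespace Pool.Agent.W397.GZ

noncomputable section

namespace N2aux

open Pool.Agent.H336R2.HD.H2aux (UC coeff_mul_UC UC.mul UC.pow UC.prod UC.lin UC.iv PB_linp PB_ivp
  iv_rescale lin_rescale not_dvd_of_lt)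

set_option linter.unusedSectionVars false

variable {p : ℕ} [hp : Fact p.Prime]

/-- the exact part -/
def Fx (p : ℕ) (j e : ℕ) : PowerSeries ℚ :=
  (∏ b ∈ (Finset.range 2).erase j, iv (((b : ℚ) - j) * p) ^ 3) *
  (PowerSeries.X + PowerSeries.C (-(j : ℚ) * p)) ^ e

lemma card_erase {j : ℕ} (hj : j ≤ 1) : ((Finset.range 2).erase j).card = 1 := by
  rw [Finset.card_erase_of_mem (by rw [Finset.mem_range]; omega)]; rfl

lemma Fx_eq (hp0 : (p : ℚ) ≠ 0) {j : ℕ} (hj : j ≤ 1) (e : ℕ) : Fx p j e =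
    PowerSeries.C (((p : ℚ)⁻¹) ^ 3 * (p : ℚ) ^ e) *
      PowerSeries.rescale ((p : ℚ)⁻¹) (ser j e) := by
  have hprod : ∏ b ∈ (Finset.range 2).erase j, iv (((b : ℚ) - j) * p) ^ 3 =
      PowerSeries.C ((p : ℚ)⁻¹) ^ 3 * PowerSeries.rescale ((p : ℚ)⁻¹)
        (∏ b ∈ (Finset.range 2).erase j, iv ((b : ℚ) - j) ^ 3) := by
    rw [map_prod]
    have h1 : PowerSeries.C ((p : ℚ)⁻¹) ^ 3 =
        ∏ b ∈ (Finset.range 2).erase j, (PowerSeries.C ((p : ℚ)⁻¹) ^ 3 : PowerSeries ℚ) := by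
      rw [Finset.prod_const, card_erase hj, pow_one]
    rw [h1, ← Finset.prod_mul_distrib]
    apply Finset.prod_congr rfl
    intro b _
    rw [iv_rescale hp0, mul_pow, map_pow]
  unfold Fx ser
  rw [hprod, lin_rescale hp0]
  generalize (∏ b ∈ (Finset.range 2).erase j, iv ((b : ℚ) - j) ^ 3) = PI0
  simp only [map_mul, map_pow]
  ring

lemma Fx_coeff (hp0 : (p : ℚ) ≠ 0) {j : ℕ} (hj : j ≤ 1) (e l : ℕ) :
    PowerSeries.coeff l (Fx p j e) =
    ((p : ℚ)⁻¹) ^ 3 * (p : ℚ) ^ e *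
      (((p : ℚ)⁻¹) ^ l * PowerSeries.coeff l (ser j e)) := by
  rw [Fx_eq hp0 hj, PowerSeries.coeff_C_mul, PowerSeries.coeff_rescale]

lemma Fx_PB (hp50 : 50 ≤ p) {j : ℕ} (hj : j ≤ 1) (e : ℕ) :
    PB p (p : ℚ) ((p : ℚ) ^ 3 * ((p : ℚ)⁻¹) ^ e) (Fx p j e) := by
  have hp0 : (0 : ℚ) ≤ p := p_pos'.le
  have hinv : (0 : ℚ) ≤ (p : ℚ)⁻¹ := inv_nonneg.2 hp0
  have e0 : PB p (p : ℚ) (p : ℚ)⁻¹ (PowerSeries.X + PowerSeries.C (-(j : ℚ) * p)) :=
    PB_linp (-(j : ℤ)) (by push_cast; ring)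
  have f2 : PB p (p : ℚ) (∏ b ∈ (Finset.range 2).erase j, (p : ℚ) ^ 3)
      (∏ b ∈ (Finset.range 2).erase j, iv (((b : ℚ) - j) * p) ^ 3) := by
    apply PB.prod _ _ _ hp0
    · intro b _; positivity
    · intro b hb
      rw [Finset.mem_erase, Finset.mem_range] at hb
      apply PB.pow hp0 hp0
      apply PB_ivp (a := (b : ℤ) - j) (by push_cast; ring)
      exact not_dvd_of_lt (by omega) (by omega) (by omega)
  have f3 := PB.pow hp0 hinv e0 e
  rw [Finset.prod_const, card_erase hj, pow_one] at f2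
  exact PB.mul hp0 (by positivity) (by positivity) f2 f3

/-! ### the unit part -/

def PT (p r : ℕ) : Finset ℕ := (Finset.range 2).image (fun b => r + b * p)

def S3 (p r : ℕ) : Finset ℕ := Finset.Icc 1 (2 * p) \ PT p r

/-- the constant -/
def w0 (p r : ℕ) : ℚ :=
  (∏ r' ∈ (Finset.Icc 1 p).erase r, ((r' : ℚ) - r) ^ 6) *
  ∏ m ∈ S3 p r, (((m : ℚ) - r)⁻¹) ^ 3

/-- the unit part -/
def Gx (p r k : ℕ) : PowerSeries ℚ :=
  (∏ r' ∈ (Finset.Icc 1 p).erase r, (PowerSeries.X + PowerSeries.C (-(k : ℚ) + r')) ^ 6) *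
  ∏ m ∈ S3 p r, iv (-(k : ℚ) + m) ^ 3

lemma S3_not_dvd {r m : ℕ} (hr1 : 1 ≤ r) (hr2 : r ≤ p) (hm : m ∈ S3 p r) :
    ¬ (p : ℤ) ∣ (m : ℤ) - r := by
  unfold S3 PT at hm
  rw [Finset.mem_sdiff, Finset.mem_Icc, Finset.mem_image] at hm
  obtain ⟨⟨h1, h2⟩, h3⟩ := hm
  rintro ⟨c, hc⟩
  have hpp : (0 : ℤ) < p := by exact_mod_cast hp.out.pos
  have hc1 : c < 2 := by
    by_contra h
    have h5 : (p : ℤ) * 2 ≤ p * c := mul_le_mul_of_nonneg_left (by omega) hpp.le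
    omega
  have hc2 : -1 < c := by
    by_contra h
    have h5 : (p : ℤ) * c ≤ p * (-1) := mul_le_mul_of_nonneg_left (by omega) hpp.le
    omega
  apply h3
  refine ⟨c.toNat, by rw [Finset.mem_range]; omega, ?_⟩
  have h6 : ((c.toNat : ℕ) : ℤ) = c := Int.toNat_of_nonneg (by omega)
  have h7 : ((r + c.toNat * p : ℕ) : ℤ) = m := by
    push_cast
    rw [h6]
    linarith
  exact_mod_cast h7

lemma Gx_UC (hp50 : 50 ≤ p) {r : ℕ} (hr1 : 1 ≤ r) (hr2 : r ≤ p) (j : ℕ) :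
    UC p (Gx p r (r + j * p)) (w0 p r) := by
  unfold Gx w0
  refine UC.mul ?_ ?_
  · apply UC.prod
    intro r' hr'
    rw [Finset.mem_erase, Finset.mem_Icc] at hr'
    apply UC.pow
    apply UC.lin (a := -((r + j * p : ℕ) : ℤ) + r') (a0 := (r' : ℤ) - r)
    · push_cast; ring
    · push_cast; ring
    · exact not_dvd_of_lt (by omega) (by omega) (by omega)
    · refine ⟨-j, ?_⟩
      push_cast; ring
  · apply UC.prod
    intro m hm
    apply UC.pow
    apply UC.iv (a := -((r + j * p : ℕ) : ℤ) + m) (a0 := (m : ℤ) - r)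
    · push_cast; ring
    · push_cast; ring
    · exact S3_not_dvd hr1 hr2 hm
    · refine ⟨-j, ?_⟩
      push_cast; ring

/-! ### the numerator -/

lemma TS_num (p r e k : ℕ) : TS (-(k : ℚ)) ((X + C (r : ℚ)) ^ e * oth p r 6) =
    ((PowerSeries.X + PowerSeries.C (-(k : ℚ) + r)) ^ e *
    ∏ r' ∈ (Finset.Icc 1 p).erase r, (PowerSeries.X + PowerSeries.C (-(k : ℚ) + r')) ^ 6) := by
  unfold oth
  simp only [map_mul, map_pow, map_prod, TS_lin]

lemma VV_den {r : ℕ} (hr1 : 1 ≤ r) (hr2 : r ≤ p) {j : ℕ} (hj : j ≤ 1) :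
    VV ((sN p).erase (r + j * p)) m3 (-((r + j * p : ℕ) : ℚ)) =
      (∏ m ∈ S3 p r, iv (-((r + j * p : ℕ) : ℚ) + m) ^ 3) *
      ∏ b ∈ (Finset.range 2).erase j, iv (((b : ℚ) - j) * p) ^ 3 := by
  have hppos : 0 < p := hp.out.pos
  unfold VV m3 sN
  have h3 : (Finset.Icc 1 (2 * p)).erase (r + j * p) =
      S3 p r ∪ ((Finset.range 2).erase j).image (fun b => r + b * p) := by
    ext m
    unfold S3 PT
    rw [Finset.mem_union, Finset.mem_erase, Finset.mem_sdiff, Finset.mem_image, Finset.mem_image,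
      Finset.mem_Icc]
    constructor
    · rintro ⟨h4, h5⟩
      by_cases h6 : ∃ a ∈ Finset.range 2, r + a * p = m
      · right
        obtain ⟨a, ha, hm⟩ := h6
        refine ⟨a, ?_, hm⟩
        rw [Finset.mem_erase]
        refine ⟨?_, ha⟩
        rintro rfl
        exact h4 hm.symm
      · left
        exact ⟨h5, h6⟩
    · rintro (⟨h4, h5⟩ | ⟨a, ha, hm⟩)
      · refine ⟨?_, h4⟩
        rintro rfl
        exact h5 ⟨j, by rw [Finset.mem_range]; omega, rfl⟩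
      · rw [Finset.mem_erase, Finset.mem_range] at ha
        have ha2 : a * p ≤ 1 * p := Nat.mul_le_mul_right p (by omega)
        refine ⟨?_, by omega⟩
        intro h6
        apply ha.1
        have h7 : a * p = j * p := by omega
        exact Nat.eq_of_mul_eq_mul_right hppos h7
  have h4 : Disjoint (S3 p r) (((Finset.range 2).erase j).image (fun b => r + b * p)) := by
    rw [Finset.disjoint_left]
    intro m hm hm2
    unfold S3 PT at hm
    rw [Finset.mem_sdiff] at hm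
    apply hm.2
    rw [Finset.mem_image] at hm2 ⊢
    obtain ⟨a, ha, hm3⟩ := hm2
    exact ⟨a, Finset.mem_of_mem_erase ha, hm3⟩
  have h5 : ∏ m ∈ ((Finset.range 2).erase j).image (fun b => r + b * p),
      iv (-((r + j * p : ℕ) : ℚ) + m) ^ 3 =
      ∏ b ∈ (Finset.range 2).erase j, iv (-((r + j * p : ℕ) : ℚ) + ((r + b * p : ℕ) : ℚ)) ^ 3 := by
    apply Finset.prod_image
    intro a _ b _ hab
    have h5 : r + a * p = r + b * p := hab
    have h7 : a * p = b * p := by omega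
    exact Nat.eq_of_mul_eq_mul_right hppos h7
  have h6 : ∀ b : ℕ, -((r + j * p : ℕ) : ℚ) + ((r + b * p : ℕ) : ℚ) = ((b : ℚ) - j) * p := by
    intro b
    push_cast
    ring
  rw [h3, Finset.prod_union h4, h5]
  refine congrArg₂ _ rfl (Finset.prod_congr rfl fun b _ => ?_)
  rw [h6]

/-- the factorisation -/
lemma factor {r : ℕ} (hr1 : 1 ≤ r) (hr2 : r ≤ p) {j : ℕ} (hj : j ≤ 1) (e : ℕ) :
    TS (-((r + j * p : ℕ) : ℚ)) ((X + C (r : ℚ)) ^ e * oth p r 6) *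
      VV ((sN p).erase (r + j * p)) m3 (-((r + j * p : ℕ) : ℚ)) =
    Fx p j e * Gx p r (r + j * p) := by
  rw [TS_num, VV_den hr1 hr2 hj]
  have v1 : -((r + j * p : ℕ) : ℚ) + (r : ℚ) = -(j : ℚ) * p := by push_cast; ring
  rw [v1]
  unfold Fx Gx
  generalize ∏ m ∈ S3 p r, iv (-((r + j * p : ℕ) : ℚ) + m) ^ 3 = a3
  generalize ∏ b ∈ (Finset.range 2).erase j, iv (((b : ℚ) - j) * p) ^ 3 = a4
  generalize ∏ r' ∈ (Finset.Icc 1 p).erase r,
    (PowerSeries.X + PowerSeries.C (-((r + j * p : ℕ) : ℚ) + r')) ^ 6 = a5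
  generalize (PowerSeries.X + PowerSeries.C (-(j : ℚ) * p)) ^ e = a6
  ring

lemma card_class (r j : ℕ) (hr1 : 1 ≤ r) (hr2 : r ≤ p) (hj : j ≤ 1) :
    (((sN p).erase (r + j * p)).filter
      (fun m : ℕ => (p : ℤ) ∣ (m : ℤ) - (r + j * p : ℕ))).card ≤ 1 := by
  have h1 : (((sN p).erase (r + j * p)).filter
      (fun m : ℕ => (p : ℤ) ∣ (m : ℤ) - (r + j * p : ℕ))) ⊆
      ((Finset.range 2).erase j).image (fun b => r + b * p) := by
    intro m hm
    rw [Finset.mem_filter, Finset.mem_erase, sN, Finset.mem_Icc] at hm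
    obtain ⟨⟨hne, h1, h2⟩, c, hc⟩ := hm
    have hpp : (0 : ℤ) < p := by exact_mod_cast (Fact.out : p.Prime).pos
    rw [Finset.mem_image]
    have hc2 : (m : ℤ) = r + (j + c) * p := by push_cast at hc; linarith
    have h3 : 0 ≤ (j : ℤ) + c := by
      by_contra h
      have h4 : ((j : ℤ) + c) * p ≤ (-1) * p := mul_le_mul_of_nonneg_right (by omega) hpp.le
      have h5 : (1 : ℤ) ≤ m := by exact_mod_cast h1
      have h6 : (r : ℤ) ≤ p := by exact_mod_cast hr2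
      linarith
    have h4 : (j : ℤ) + c < 2 := by
      by_contra h
      have h4 : 2 * (p : ℤ) ≤ ((j : ℤ) + c) * p := mul_le_mul_of_nonneg_right (by omega) hpp.le
      have h5 : (m : ℤ) ≤ 2 * p := by exact_mod_cast h2
      have h6 : (1 : ℤ) ≤ r := by exact_mod_cast hr1
      linarith
    obtain ⟨b, hb⟩ := Int.eq_ofNat_of_zero_le h3
    have hmb : m = r + b * p := by
      have : (m : ℤ) = ((r + b * p : ℕ) : ℤ) := by rw [hc2, hb]; push_cast; rfl
      exact_mod_cast this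
    refine ⟨b, ?_, hmb.symm⟩
    rw [Finset.mem_erase, Finset.mem_range]
    refine ⟨?_, by omega⟩
    rintro rfl
    exact hne hmb
  calc _ ≤ (((Finset.range 2).erase j).image (fun b => r + b * p)).card := Finset.card_le_card h1
    _ ≤ ((Finset.range 2).erase j).card := Finset.card_image_le
    _ = 1 := card_erase hj

end N2aux

open Pool.Agent.H336R2.HD.H2aux (UC coeff_mul_UC)
open N2aux

/-- N2: partial fraction coefficients modulo `p` -/
theorem n2 : N2s := by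
  intro p hfact hp r hr1 hr2
  have hp0 : (p : ℚ) ≠ 0 := p_pos'.ne'
  have hpp : (0 : ℚ) < p := p_pos'
  refine ⟨w0 p r, (Gx_UC hp hr1 hr2 0).1, ?_⟩
  intro e j i he hj hi1 hi2
  have hmu : m3 (r + j * p) = 3 := rfl
  unfold pa
  rw [hmu, if_pos hi2]
  unfold pfc
  rw [factor hr1 hr2 hj e]
  have h1 := coeff_mul_UC (p := p) (by positivity) (Fx_PB hp hj e) (Gx_UC hp hr1 hr2 j) (3 - i)
  have h2 := Fx_coeff hp0 hj e (3 - i)
  set X1 := PowerSeries.coeff (3 - i) (Fx p j e * Gx p r (r + j * p)) with hX1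
  set X2 := PowerSeries.coeff (3 - i) (Fx p j e) with hX2
  have hz : (p : ℚ) ^ ((e : ℤ) + i - 6) = (p : ℚ) ^ e * (p : ℚ) ^ i * ((p : ℚ)⁻¹) ^ 6 := by
    rw [zpow_sub₀ hp0, zpow_add₀ hp0, zpow_natCast, zpow_natCast, inv_pow, ← div_eq_mul_inv]
    norm_cast
  have h3 : ((p : ℚ)⁻¹) ^ (3 - i) = (p : ℚ) ^ i * ((p : ℚ)⁻¹) ^ 3 := by
    have h4 : ((p : ℚ)⁻¹) ^ 3 = ((p : ℚ)⁻¹) ^ i * ((p : ℚ)⁻¹) ^ (3 - i) := by
      rw [← pow_add, Nat.add_sub_cancel' hi2]
    rw [h4, ← mul_assoc, ← mul_pow, mul_inv_cancel₀ hp0, one_pow, one_mul]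
  set D : ℚ := (p : ℚ) ^ e * (p : ℚ) ^ i * ((p : ℚ)⁻¹) ^ 6 with hD
  have hDpos : 0 < D := by positivity
  have hX2e : X2 = D * PowerSeries.coeff (3 - i) (ser j e) := by
    rw [h2, hD, h3]; ring
  have h6 : X1 / (p : ℚ) ^ ((e : ℤ) + i - 6) - w0 p r * PowerSeries.coeff (3 - i) (ser j e) =
      (X1 - X2 * w0 p r) / D := by
    rw [hz, sub_div, hX2e]
    congr 1
    field_simp
  have hDn : padicNorm p D = ((p : ℚ)⁻¹) ^ e * ((p : ℚ)⁻¹) ^ i * (p : ℚ) ^ 6 := by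
    have h7 : D = (p : ℚ) ^ e * (p : ℚ) ^ i / (p : ℚ) ^ 6 := by
      rw [hD, inv_pow, div_eq_mul_inv]
    rw [h7, padicNorm.div, padicNorm.mul, padicNorm_pow', padicNorm_pow', padicNorm_pow',
      padicNorm.padicNorm_p_of_prime, div_eq_mul_inv, inv_pow (p : ℚ) 6, inv_inv]
  rw [h6, padicNorm.div, hDn]
  have hDn0 : 0 < ((p : ℚ)⁻¹) ^ e * ((p : ℚ)⁻¹) ^ i * (p : ℚ) ^ 6 := by positivity
  rw [div_le_iff₀ hDn0]
  refine h1.trans (le_of_eq ?_)
  have h9 : (p : ℚ) ^ (3 - i) = (p : ℚ) ^ 3 * ((p : ℚ)⁻¹) ^ i := by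
    have h4 : (p : ℚ) ^ 3 = (p : ℚ) ^ (3 - i) * (p : ℚ) ^ i := by
      rw [← pow_add, Nat.sub_add_cancel hi2]
    rw [h4, mul_assoc, ← mul_pow, mul_inv_cancel₀ hp0, one_pow, mul_one]
  rw [h9]
  ring

/-- N2b: size of the principal coefficients in any class -/
theorem n2b : N2b := by
  intro p hfact hp r a j i hr1 hr2 hj hi1 hi2 F hF
  have hp0 : (0 : ℚ) ≤ p := p_pos'.le
  have hpne : (p : ℚ) ≠ 0 := p_pos'.ne'
  have hinv : (0 : ℚ) ≤ (p : ℚ)⁻¹ := inv_nonneg.2 hp0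
  have hF' : PB p (p : ℚ) 1 (TS (-((r + j * p : ℕ) : ℚ)) F) := by
    intro l
    refine (hF l).trans ?_
    rw [one_pow, one_mul, one_mul]
    exact one_le_pow₀ p_one'
  have hlin : PB p (p : ℚ) ((p : ℚ)⁻¹) (TS (-((r + j * p : ℕ) : ℚ)) (X + C (r : ℚ))) := by
    rw [TS_lin]
    apply PB.linX hp0 hinv
    · have h := norm_le_ite (p := p) (-((j : ℤ) * p))
      rw [if_pos (by rw [dvd_neg]; exact Dvd.intro_left _ rfl)] at h
      have h2 : ((-((j : ℤ) * p) : ℤ) : ℚ) = -((r + j * p : ℕ) : ℚ) + (r : ℚ) := by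
        push_cast; ring
      rw [h2] at h
      exact h
    · rw [inv_mul_cancel₀ hpne]
  have hE : PB p (p : ℚ) (((p : ℚ)⁻¹) ^ a * 1)
      (TS (-((r + j * p : ℕ) : ℚ)) ((X + C (r : ℚ)) ^ a * F)) := by
    rw [(TS (-((r + j * p : ℕ) : ℚ))).map_mul, map_pow]
    exact PB.mul hp0 (by positivity) zero_le_one (PB.pow hp0 hinv hlin a) hF'
  unfold pa
  have hmu : m3 (r + j * p) = 3 := rfl
  rw [hmu, if_pos hi2]
  have h1 := pfc_bound (p := p) (sN p) m3 ((X + C (r : ℚ)) ^ a * F) (r + j * p) (p : ℚ) _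
    (fun m => if (p : ℤ) ∣ (m : ℤ) - (r + j * p : ℕ) then (p : ℚ) else 1) hp0 (by positivity) hE
    (by
      intro m hm _
      have hm1 := Finset.mem_of_mem_erase hm
      rw [sN, Finset.mem_Icc] at hm1
      have hmk : m ≠ r + j * p := Finset.ne_of_mem_erase hm
      have hjp : j * p ≤ 1 * p := Nat.mul_le_mul_right p hj
      have hp2 : 50 * p ≤ p ^ 2 := by rw [pow_two]; exact Nat.mul_le_mul_right p hp
      have h2 := norm_small (p := p) (a := (m : ℤ) - (r + j * p : ℕ)) (by omega) (by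
        have h3 : ((2 * p : ℕ) : ℤ) < ((p ^ 2 : ℕ) : ℤ) := by exact_mod_cast (by omega)
        have h4 : (((p ^ 2 : ℕ) : ℤ)) = (p : ℤ) ^ 2 := by push_cast; ring
        rw [← h4, abs_lt]
        constructor <;> omega)
      rw [Int.cast_sub, Int.cast_natCast, Int.cast_natCast] at h2
      rw [h2]
      split_ifs
      · simp
      · simp [(Fact.out : p.Prime).one_lt.le])
    (by
      intro m _
      split_ifs
      · exact hp0
      · exact zero_le_one) (3 - i)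
  refine h1.trans ?_
  have h5 : ∏ m ∈ (sN p).erase (r + j * p),
      (if (p : ℤ) ∣ (m : ℤ) - (r + j * p : ℕ) then (p : ℚ) else 1) ^ m3 m ≤ (p : ℚ) ^ 3 := by
    rw [prod_ite_pow]
    apply pow_le_pow_right₀ p_one'
    unfold m3
    rw [← Finset.mul_sum, ← Finset.card_filter]
    have := card_class (p := p) r j hr1 hr2 hj
    omega
  calc ((p : ℚ)⁻¹) ^ a * 1 * (∏ m ∈ (sN p).erase (r + j * p),
      (if (p : ℤ) ∣ (m : ℤ) - (r + j * p : ℕ) then (p : ℚ) else 1) ^ m3 m) * (p : ℚ) ^ (3 - i)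
      ≤ ((p : ℚ)⁻¹) ^ a * 1 * (p : ℚ) ^ 3 * (p : ℚ) ^ (3 - i) := by gcongr
    _ = (p : ℚ) ^ (6 - (a : ℤ) - i) := by
      rw [mul_one, ← zpow_natCast, ← zpow_natCast, ← zpow_natCast, inv_zpow',
        ← zpow_add₀ hpne, ← zpow_add₀ hpne]
      congr 1
      push_cast [Nat.cast_sub hi2]
      ring

/-- both parts -/
theorem main : N2s ∧ N2b := ⟨n2, n2b⟩

end

end Pool.Agent.W397.GZ
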